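import Pool.Agent.H4.GW.Low

/-! # wq_modules KPR, CLS, MU0 (helper4) -/

set_option autoImplicit false

namespace Pool.Agent.H4.GW

open Pool.Agent.H55.GW

theorem rIn_G_rev {F : Frame} {S : Set Vx} {x y : Vx} (h : RIn F.G S x y) : RIn F.G S y x :=
  h.rev.mono (fun _ _ h' _ _ => Frame.G_symm h') subset_rfl

theorem kpr (hB : T_LOWB) : T_KPR := by
  intro c h j hg ξ hξ η hη hξO hηO
  obtain ⟨hj1, hj2, hRR, hXX, hXR⟩ := hg
  have hjT : j < c.T := by omega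
  have hj1T : j + 1 ≤ c.T := by omega
  obtain ⟨-, -, -, -, l5, -, -, -⟩ := hB c h j hjT
  have hηO0 : Sum.inr η ∉ c.O 0 := mono' h (Nat.zero_le _) le_rfl hηO
  have k1 : ∀ x ∈ c.Kset j ξ η, x ∈ c.Reg j ∧ ∀ a, ¬ c.Prt j a x := by
    rintro x ⟨⟨y, h1, h2⟩, -⟩
    refine ⟨h2.right_mem, fun a ha => hXR ⟨ξ, hξ, a, y, x, h1, ha, h2⟩⟩
  have k2 : ∀ x ∈ c.Kset j ξ η, ∀ y ∈ c.Reg j, c.F.G x y → y ∈ c.Kset j ξ η := by
    rintro x ⟨⟨z, h1, h2⟩, ⟨z', h3, h4⟩⟩ y hy hG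
    exact ⟨⟨z, h1, h2.tail hG hy⟩, ⟨z', h3, h4.tail hG hy⟩⟩
  have k3 : ∀ ξ' ∈ c.Ξ, ∀ x ∈ c.Kset j ξ η, c.F.G (Sum.inr ξ') x → ξ' = ξ ∨ ξ' = η := by
    rintro ξ' hξ' x ⟨⟨z, h1, h2⟩, ⟨z', h3, h4⟩⟩ hG
    by_cases hO : Sum.inr ξ' ∈ c.O 0
    · left
      by_contra hne
      exact hXX ⟨ξ, hξ, ξ', hξ', fun he => hne he.symm, ⟨fun _ => hO, fun _ => hξO⟩, z, x, h1,
        hG, h2⟩
    · right
      by_contra hne
      exact hXX ⟨η, hη, ξ', hξ', fun he => hne he.symm,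
        ⟨fun h5 => absurd h5 hηO0, fun h5 => absurd h5 hO⟩, z', x, h3, hG, h4⟩
  have kX : ∀ v, Sum.inr v ∈ c.Kset j ξ η → v ∉ c.Ξ := by
    intro v hv hX
    exact (k1 _ hv).1.2 ⟨v, by simpa using hX, rfl⟩
  have kport1 : ∀ v a, Sum.inr v ∈ c.Kset j ξ η → v ≠ c.s j a := by
    intro v a hv he
    exact (k1 _ hv).2 a (Or.inl (by rw [he]))
  have kport2 : ∀ v a, Sum.inr v ∈ c.Kset j ξ η → v ≠ c.s (j + 1) a := by
    intro v a hv he
    exact (k1 _ hv).2 a (Or.inr (by rw [he]))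
  have hne : ξ ≠ η := by
    intro he
    exact hηO0 (he ▸ hξO)
  have k4 : ∀ e, Sum.inl e ∈ c.Kset j ξ η → ∃ v, c.F.att e v ∧ Sum.inr v ∈ c.Kset j ξ η := by
    intro e he
    have hmain : ∀ z, RIn c.F.G (c.Reg j) z (Sum.inl e) → z ≠ Sum.inl e →
        ∃ v, c.F.att e v ∧ Sum.inr v ∈ c.Kset j ξ η := by
      intro z hz hne
      rcases hz.cases_tail with h1 | ⟨w, h1, h2⟩
      · exact absurd h1 hne
      · rcases w with w | w
        · exact absurd h2 (by simp [Frame.G])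
        · exact ⟨w, h2, k2 _ he _ h1.right_mem (Frame.G_symm h2)⟩
    obtain ⟨⟨y, h1, h2⟩, ⟨y', h3, h4⟩⟩ := he
    by_cases hy : y = Sum.inl e
    · by_cases hy' : y' = Sum.inl e
      · rw [hy] at h1
        rw [hy'] at h3
        exact absurd (c.F.att_uniq e ξ η h1 h3) hne
      · exact hmain y' h4 hy'
    · exact hmain y h2 hy
  have hRegmem : ∀ x, x ∈ c.O (j + 1) → x ∉ c.O j → (∀ v ∈ c.Ξ, x ≠ Sum.inr v) → x ∈ c.Reg j := by
    intro x h1 h2 h3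
    refine ⟨⟨h.mono (j + 1) (j + 2) (Nat.le_succ _) hj2 h1, mono' h (Nat.sub_le _ _) hjT.le h2⟩, ?_⟩
    rintro ⟨v, hv, rfl⟩
    exact h3 v (by simpa using hv) rfl
  have k5 : ∀ e ∈ c.KE j ξ η, ∃ v ∈ c.KV j ξ η, c.F.att e v := by
    rintro e ⟨⟨⟨heE, heO⟩, heO'⟩, heK⟩
    have heO1 : Sum.inl e ∈ c.O (j + 1) := by
      by_contra hc
      exact heO' ⟨heE, hc⟩
    obtain ⟨v, hv, hvK⟩ := k4 e heK
    refine ⟨v, ⟨⟨Frame.att_V hv, ?_⟩, hvK⟩, hv⟩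
    by_cases hb : e ∈ c.F.base c.m
    · have hD : c.F.D c.m (Sum.inr v) (Sum.inl e) := ⟨hv, hb⟩
      refine ⟨h.inc (j + 1) hj1T _ _ hD heO1, fun hc => ?_⟩
      rcases h.cover j hjT.le _ _ hD hc heO with ⟨ζ, hζ, h4 | h4⟩ | ⟨a, ⟨ha, h4⟩ | ⟨ha, h4⟩⟩
      · exact kX v hvK (Sum.inr.inj h4 ▸ hζ)
      · exact absurd h4 (by simp)
      · exact kport1 v a hvK (Sum.inr.inj h4)
      · exact absurd h4 (by simp)
    · have hD : c.F.D c.m (Sum.inl e) (Sum.inr v) := ⟨hv, hb⟩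
      refine ⟨?_, fun hc => heO (h.inc j hjT.le _ _ hD hc)⟩
      by_contra hc
      rcases h.cover (j + 1) hj1T _ _ hD heO1 hc with ⟨ζ, hζ, h4 | h4⟩ | ⟨a, ⟨ha, h4⟩ | ⟨ha, h4⟩⟩
      · exact absurd h4 (by simp)
      · exact kX v hvK (Sum.inr.inj h4 ▸ hζ)
      · exact absurd h4 (by simp)
      · exact kport2 v a hvK (Sum.inr.inj h4)
  have k6 : ∀ v ∈ c.KV j ξ η, ∀ e, c.F.att e v → e ∈ c.KE j ξ η := by
    rintro v ⟨⟨hvV, hv1, hv2⟩, hvK⟩ e hv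
    have hmain : Sum.inl e ∈ c.O (j + 1) ∧ Sum.inl e ∉ c.O j := by
      by_cases hb : e ∈ c.F.base c.m
      · have hD : c.F.D c.m (Sum.inr v) (Sum.inl e) := ⟨hv, hb⟩
        refine ⟨?_, fun hc => hv2 (h.inc j hjT.le _ _ hD hc)⟩
        by_contra hc
        rcases h.cover (j + 1) hj1T _ _ hD hv1 hc with
          ⟨ζ, hζ, h4 | h4⟩ | ⟨a, ⟨ha, h4⟩ | ⟨ha, h4⟩⟩
        · exact kX v hvK (Sum.inr.inj h4 ▸ hζ)
        · exact absurd h4 (by simp)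
        · exact kport2 v a hvK (Sum.inr.inj h4)
        · exact absurd h4 (by simp)
      · have hD : c.F.D c.m (Sum.inl e) (Sum.inr v) := ⟨hv, hb⟩
        refine ⟨h.inc (j + 1) hj1T _ _ hD hv1, fun hc => ?_⟩
        rcases h.cover j hjT.le _ _ hD hc hv2 with ⟨ζ, hζ, h4 | h4⟩ | ⟨a, ⟨ha, h4⟩ | ⟨ha, h4⟩⟩
        · exact absurd h4 (by simp)
        · exact kX v hvK (Sum.inr.inj h4 ▸ hζ)
        · exact absurd h4 (by simp)
        · exact kport1 v a hvK (Sum.inr.inj h4)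
    refine ⟨⟨⟨Frame.att_E hv, hmain.2⟩, fun h4 => h4.2 hmain.1⟩, ?_⟩
    exact k2 _ hvK _ (hRegmem _ hmain.1 hmain.2 fun _ _ => by simp) (Frame.G_symm hv)
  have k7 : ∀ v ∈ c.KV j ξ η, ∀ u, c.F.G (Sum.inr v) (Sum.inr u) →
      u ∈ c.KV j ξ η ∨ u = ξ ∨ u = η := by
    rintro v ⟨⟨hvV, hv1, hv2⟩, hvK⟩ u hG
    by_cases huX : u ∈ c.Ξ
    · exact Or.inr (k3 u huX _ hvK (Frame.G_symm hG))
    left
    have hport : ∀ a, u = c.s j a ∨ u = c.s (j + 1) a → Sum.inr u ∈ c.O (j + 2) →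
        Sum.inr u ∉ c.O (j - 1) → False := by
      intro a ha h1 h2
      have hR : Sum.inr u ∈ c.Reg j := by
        refine ⟨⟨h1, h2⟩, ?_⟩
        rintro ⟨w, hw, he⟩
        exact huX (by rw [← Sum.inr.inj he]; simpa using hw)
      have hK := k2 _ hvK _ hR hG
      rcases ha with ha | ha
      · exact kport1 u a hK ha
      · exact kport2 u a hK ha
    have hmain : Sum.inr u ∈ c.O (j + 1) ∧ Sum.inr u ∉ c.O j := by
      rcases Frame.G_D h.pm hG with hD | hD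
      · refine ⟨?_, fun hc => hv2 (h.inc j hjT.le _ _ hD hc)⟩
        by_contra hc
        rcases h.cover (j + 1) hj1T _ _ hD hv1 hc with
          ⟨ζ, hζ, h4 | h4⟩ | ⟨a, ⟨ha, h4⟩ | ⟨ha, h4⟩⟩
        · exact kX v hvK (Sum.inr.inj h4 ▸ hζ)
        · exact huX (Sum.inr.inj h4 ▸ hζ)
        · exact kport2 v a hvK (Sum.inr.inj h4)
        · have hu := Sum.inr.inj h4
          refine hport a (Or.inr hu) ?_ ?_
          · rw [hu]
            exact (h.sI (j + 1) hj1T a ha).2.2 (j + 2) (Nat.lt_succ_self _) hj2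
          · exact mono' h (by omega) hj1T hc
      · refine ⟨h.inc (j + 1) hj1T _ _ hD hv1, fun hc => ?_⟩
        rcases h.cover j hjT.le _ _ hD hc hv2 with ⟨ζ, hζ, h4 | h4⟩ | ⟨a, ⟨ha, h4⟩ | ⟨ha, h4⟩⟩
        · exact huX (Sum.inr.inj h4 ▸ hζ)
        · exact kX v hvK (Sum.inr.inj h4 ▸ hζ)
        · have hu := Sum.inr.inj h4
          refine hport a (Or.inl hu) (h.mono j (j + 2) (by omega) hj2 hc) ?_
          rw [hu]
          exact (h.sO j hjT.le a ha).2.2 (j - 1) (by omega)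
        · exact kport1 v a hvK (Sum.inr.inj h4)
    have huV : u ∈ c.F.V := by
      rcases hG with hG | hG
      · exact Frame.adj_right hG
      · exact Frame.adj_left hG
    refine ⟨⟨huV, hmain.1, hmain.2⟩, k2 _ hvK _ (hRegmem _ hmain.1 hmain.2 ?_) hG⟩
    intro w hw he
    exact huX (Sum.inr.inj he ▸ hw)
  refine ⟨k1, k2, k3, k4, k5, k6, k7, ?_, ?_⟩
  · intro v hv y hG
    exact ⟨l5 v hv.1 (fun a => ⟨kport1 v a hv.2, kport2 v a hv.2⟩) y hG, Or.inl hv.2⟩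
  · rintro ξ' hξ' η' hη' hξO' hηO' x ⟨⟨z, h1, h2⟩, ⟨z', h3, h4⟩⟩ ⟨⟨w, h5, h6⟩, ⟨w', h7, h8⟩⟩
    have hηO0' : Sum.inr η' ∉ c.O 0 := mono' h (Nat.zero_le _) le_rfl hηO'
    constructor
    · by_contra hne'
      exact hXX ⟨ξ, hξ, ξ', hξ', fun he => hne' he.symm, ⟨fun _ => hξO', fun _ => hξO⟩, z, w, h1,
        h5, h2.trans (rIn_G_rev h6)⟩
    · by_contra hne'
      exact hXX ⟨η, hη, η', hη', fun he => hne' he.symm,
        ⟨fun h9 => absurd h9 hηO0, fun h9 => absurd h9 hηO0'⟩, z', w', h3, h7,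
        h4.trans (rIn_G_rev h8)⟩

theorem bs_att {F : Frame} {J : Set ℕ} {m : ℕ → Vx} {e w : ℕ} (hw : F.att e w) :
    Bs F J m e ↔ (F.isP w ↔ ¬ (w ∈ J ∧ m w = Sum.inl e)) := by
  constructor
  · rintro (⟨v, hv, h1⟩ | ⟨h1, -⟩)
    · rwa [F.att_uniq e w v hw hv]
    · exact absurd hw (h1 w)
  · intro h1
    exact Or.inl ⟨w, hw, h1⟩

theorem bs_free {F : Frame} {J : Set ℕ} {m : ℕ → Vx} {e : ℕ} (hw : ∀ w, ¬ F.att e w) :
    Bs F J m e ↔ F.co e := by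
  constructor
  · rintro (⟨v, hv, -⟩ | ⟨-, h1⟩)
    · exact absurd hv (hw v)
    · exact h1
  · intro h1
    exact Or.inr ⟨hw, h1⟩

theorem low_of_le {c : Ctx} (h : c.Ok) {i j : ℕ} (hij : i ≤ j) (hj : j ≤ c.T) {x y : Vx}
    (hl : c.low j x y) : c.low i x y := by
  induction j, hij using Nat.le_induction with
  | base => exact hl
  | succ j hij ih => exact ih (by omega) (lowb_one h (by omega) hl)

theorem s_mem_of_lt {c : Ctx} (h : c.Ok) {i j : ℕ} (hij : i < j) (hj : j ≤ c.T) (a : Fin c.k) :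
    Sum.inr (c.s i a) ∈ c.O j :=
  h.mono (i + 1) j hij hj (s_mem_succ h (by omega) a)

theorem cls (hK : T_KPR) (_hB : T_LOWB) : T_CLS := by
  intro c h j hg ξ hξ η hη hξO hηO hbrk i hij A hA K Y hSt hξK hηK
  have hjT : j < c.T := by have := hg.2.1; omega
  obtain ⟨k1, k2, k3, k4, k5, k6, k7, k8, -⟩ := hK c h j hg ξ hξ η hη hξO hηO
  obtain ⟨hKX, hAX, m', hm', hus⟩ := hSt
  simp only at hKX hm' hus
  set J := c.cvS i K Y with hJ
  have hfX : ∀ ζ ∈ c.Ξ, ζ ∉ K → ζ ∉ J := by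
    rintro ζ hζ hζK ((h1 | h1) | ⟨a, -, h1⟩)
    · exact h1.2.2.1 hζ
    · exact hζK h1
    · exact s_notMem_Xi h (by omega : i ≤ c.T) a (h1 ▸ hζ)
  have hξJ := hfX ξ hξ hξK
  have hηJ := hfX η hη hηK
  have hKVX : ∀ v ∈ c.KV j ξ η, v ∉ c.Ξ := fun v hv hX => (k1 _ hv.2).1.2 ⟨v, by simpa using hX, rfl⟩
  have hKVJ : c.KV j ξ η ⊆ J := by
    intro v hv
    refine Or.inl (Or.inl ⟨hv.1.1, mono' h hij hjT.le hv.1.2.2, hKVX v hv, fun a he => ?_⟩)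
    rcases Nat.lt_or_ge i j with hlt | hge
    · exact hv.1.2.2 (he ▸ s_mem_of_lt h hlt hjT.le a)
    · have : i = j := le_antisymm hij hge
      subst this
      exact (k1 _ hv.2).2 a (Or.inl (by rw [he]))
  have hKEX : c.KE j ξ η ⊆ c.Xs i := by
    intro e he
    exact ⟨he.1.1.1, mono' h hij hjT.le he.1.1.2⟩
  have hPM1 : PMat c.F (c.edK j ξ η) (c.KV j ξ η) m' := by
    intro v hv
    obtain ⟨hV, h1⟩ := hm' v (hKVJ hv)
    refine ⟨hV, ?_⟩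
    rcases h1 with ⟨e, h1, h2, -⟩ | ⟨u, hu, h1, h2, h3, -⟩
    · exact Or.inl ⟨e, h1, h2, edK_symm (k8 v hv _ h2)⟩
    · have hG := Frame.G_symm h3
      have hu' : u ∈ c.KV j ξ η := by
        rcases k7 v hv u hG with h4 | h4 | h4
        · exact h4
        · exact absurd (h4 ▸ hu) hξJ
        · exact absurd (h4 ▸ hu) hηJ
      exact Or.inr ⟨u, hu', h1, h2, h3, k8 u hu' _ h3⟩
  have hCv : Cv c.F (c.edK j ξ η) (c.KE j ξ η) {e | e ∈ c.KE j ξ η ∧ Bs c.F (c.KV j ξ η) m' e}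
      (c.KV j ξ η) := by
    refine ⟨fun e he => he.1, m', hPM1, fun e he => ?_⟩
    exact ⟨fun h1 => h1.2, fun h1 => ⟨he, h1⟩⟩
  have hCv2 : Cv c.F (c.edK j ξ η) (c.KE j ξ η)
      {e | e ∈ c.KE j ξ η ∧ Bs c.F (c.KV j ξ η) m' e} (c.KV j ξ η ∪ {ξ, η}) := by
    by_contra hcon
    exact hbrk ⟨_, fun e he => he.1, hCv, hcon⟩
  obtain ⟨-, m2, hm2, hus2⟩ := hCv2
  classical
  set S : Set ℕ := c.KV j ξ η ∪ {ξ, η} with hS
  have hSJ : ∀ v ∈ J, v ∈ S → v ∈ c.KV j ξ η := by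
    rintro v hv (h1 | h1)
    · exact h1
    · rcases h1 with h1 | h1
      · exact absurd (h1 ▸ hv) hξJ
      · exact absurd (h1 ▸ hv) hηJ
  let ms : ℕ → Vx := fun v => if v ∈ S then m2 v else m' v
  have hms1 : ∀ v ∈ S, ms v = m2 v := fun v hv => if_pos hv
  have hms2 : ∀ v, v ∉ S → ms v = m' v := fun v hv => if_neg hv
  have hJs : c.cvS i (K ∪ {ξ, η}) Y = J ∪ {ξ, η} := by
    ext v
    simp only [Ctx.cvS, hJ, Set.mem_union]
    tauto
  refine ⟨?_, hAX, ms, ?_, ?_⟩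
  · intro ζ hζ
    rcases hζ with hζ | hζ | hζ
    · exact hKX hζ
    · rw [hζ]; simpa using hξ
    · rw [hζ]; simpa using hη
  · change PMat c.F (c.low i) (c.cvS i (K ∪ {ξ, η}) Y) ms
    rw [hJs]
    intro v hv
    by_cases hvS : v ∈ S
    · obtain ⟨hV, h1⟩ := hm2 v hvS
      refine ⟨hV, ?_⟩
      rw [hms1 v hvS]
      rcases h1 with ⟨e, h1, h2, h3⟩ | ⟨u, hu, h1, h2, h3, h4⟩
      · exact Or.inl ⟨e, h1, h2, low_of_le h hij hjT.le h3.1.1⟩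
      · refine Or.inr ⟨u, ?_, h1, by rw [hms1 u hu]; exact h2, h3, low_of_le h hij hjT.le h4.1.1⟩
        rcases hu with hu | hu
        · exact Or.inl (hKVJ hu)
        · exact Or.inr hu
    · have hvJ : v ∈ J := by
        rcases hv with hv | hv
        · exact hv
        · exact absurd (Or.inr hv) hvS
      obtain ⟨hV, h1⟩ := hm' v hvJ
      refine ⟨hV, ?_⟩
      rw [hms2 v hvS]
      rcases h1 with ⟨e, h1, h2, h3⟩ | ⟨u, hu, h1, h2, h3, h4⟩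
      · exact Or.inl ⟨e, h1, h2, h3⟩
      · have huS : u ∉ S := by
          intro huS
          have hu' := hSJ u hu huS
          rcases k7 u hu' v h3 with h5 | h5 | h5
          · exact hvS (Or.inl h5)
          · exact hvS (Or.inr (Or.inl h5))
          · exact hvS (Or.inr (Or.inr h5))
        exact Or.inr ⟨u, Or.inl hu, h1, by rw [hms2 u huS]; exact h2, h3, h4⟩
  · intro e he
    change e ∈ A ↔ Bs c.F (c.cvS i (K ∪ {ξ, η}) Y) ms e
    rw [hJs, hus e he]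
    by_cases hat : ∃ w, c.F.att e w
    · obtain ⟨w, hw⟩ := hat
      by_cases hwK : w ∈ c.KV j ξ η
      · have heK := k6 w hwK e hw
        have hwS : w ∈ S := Or.inl hwK
        have h1 := hus2 e heK
        have h2 : (e ∈ {e | e ∈ c.KE j ξ η ∧ Bs c.F (c.KV j ξ η) m' e}) ↔
            Bs c.F (c.KV j ξ η) m' e := ⟨fun h => h.2, fun h => ⟨heK, h⟩⟩
        rw [h2, bs_att hw, bs_att hw] at h1
        rw [bs_att hw, bs_att hw, hms1 w hwS]
        have h3 : w ∈ J := hKVJ hwK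
        have h4 : w ∈ J ∪ {ξ, η} := Or.inl h3
        simp only [hwK, hwS, true_and] at h1
        simp only [h3, h4, true_and]
        exact h1
      · rw [bs_att hw, bs_att hw]
        have key : (w ∈ J ∧ m' w = Sum.inl e) ↔ (w ∈ J ∪ {ξ, η} ∧ ms w = Sum.inl e) := by
          by_cases hwS : w ∈ S
          · have hwx : w ∈ ({ξ, η} : Set ℕ) := by
              rcases hwS with h1 | h1
              · exact absurd h1 hwK
              · exact h1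
            have hwJ : w ∉ J := by
              rcases hwx with h1 | h1
              · rw [h1]; exact hξJ
              · rw [h1]; exact hηJ
            have hwX : w ∈ c.Ξ := by
              rcases hwx with h1 | h1
              · rw [h1]; exact hξ
              · rw [h1]; exact hη
            have hnK : Sum.inr w ∉ c.Kset j ξ η := fun h1 =>
              (k1 _ h1).1.2 ⟨w, by simpa using hwX, rfl⟩
            constructor
            · exact fun h1 => absurd h1.1 hwJ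
            · rintro ⟨-, h1⟩
              exfalso
              rw [hms1 w hwS] at h1
              rcases (hm2 w hwS).2 with ⟨e', h2, h3, h4⟩ | ⟨u, -, h2, -⟩
              · rw [h1] at h2
                have he' := Sum.inl.inj h2
                subst he'
                rcases h4.2 with h5 | h5
                · obtain ⟨w', h6, h7⟩ := k4 e h5
                  rw [c.F.att_uniq e w' w h6 h3] at h7
                  exact hnK h7
                · exact hnK h5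
              · rw [h1] at h2
                exact absurd h2 (by simp)
          · rw [hms2 w hwS]
            constructor
            · exact fun h1 => ⟨Or.inl h1.1, h1.2⟩
            · rintro ⟨h1 | h1, h2⟩
              · exact ⟨h1, h2⟩
              · exact absurd (Or.inr h1) hwS
        rw [key]
    · push Not at hat
      rw [bs_free hat, bs_free hat]

theorem mu0 (hK : T_KPR) (hB : T_LOWB) : T_MU0 := by
  intro c h i hg
  have hiT : i < c.T := by have := hg.2.1; omega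
  obtain ⟨-, l2, -, -, -, l6, -, -⟩ := hB c h i hiT
  have hK' := hK c h i hg
  classical
  -- choice for breakable pairs
  have hch : ∀ ξ η, c.Brk i ξ η → ∃ (C : Set ℕ) (m : ℕ → Vx), C ⊆ c.KE i ξ η ∧
      PMat c.F (c.edK i ξ η) (c.KV i ξ η) m ∧
      (∀ e ∈ c.KE i ξ η, (e ∈ C ↔ Bs c.F (c.KV i ξ η) m e)) ∧
      ¬ Cv c.F (c.edK i ξ η) (c.KE i ξ η) C (c.KV i ξ η ∪ {ξ, η}) := by
    rintro ξ η ⟨C, hC, ⟨-, m, h1, h2⟩, h3⟩
    exact ⟨C, m, hC, h1, h2, h3⟩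
  let P : ℕ → ℕ → Prop := fun ξ η => ξ ∈ c.Ξ ∧ η ∈ c.Ξ ∧ Sum.inr ξ ∈ c.O 0 ∧
    Sum.inr η ∉ c.O c.T ∧ c.Brk i ξ η
  have hchoice : ∀ ξ η, ∃ (C : Set ℕ) (m : ℕ → Vx), P ξ η → (C ⊆ c.KE i ξ η ∧
      PMat c.F (c.edK i ξ η) (c.KV i ξ η) m ∧
      (∀ e ∈ c.KE i ξ η, (e ∈ C ↔ Bs c.F (c.KV i ξ η) m e)) ∧
      ¬ Cv c.F (c.edK i ξ η) (c.KE i ξ η) C (c.KV i ξ η ∪ {ξ, η})) := by
    intro ξ η
    by_cases hP : P ξ η
    · obtain ⟨C, m, h1⟩ := hch ξ η hP.2.2.2.2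
      exact ⟨C, m, fun _ => h1⟩
    · exact ⟨∅, fun _ => Sum.inl 0, fun h1 => absurd h1 hP⟩
  choose CC mm hCC using hchoice
  have huniq : ∀ ξ η ξ' η' v, P ξ η → P ξ' η' → v ∈ c.KV i ξ η → v ∈ c.KV i ξ' η' →
      ξ' = ξ ∧ η' = η := by
    intro ξ η ξ' η' v h1 h2 h3 h4
    obtain ⟨-, -, -, -, -, -, -, -, k9⟩ := hK' ξ h1.1 η h1.2.1 h1.2.2.1 h1.2.2.2.1
    exact k9 ξ' h2.1 η' h2.2.1 h2.2.2.1 h2.2.2.2.1 _ h3.2 h4.2
  let μ : ℕ → Vx := fun v => if hv : ∃ p : ℕ × ℕ, P p.1 p.2 ∧ v ∈ c.KV i p.1 p.2 then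
    mm hv.choose.1 hv.choose.2 v else c.m v
  have hμ1 : ∀ ξ η v, P ξ η → v ∈ c.KV i ξ η → μ v = mm ξ η v := by
    intro ξ η v hP hv
    have hex : ∃ p : ℕ × ℕ, P p.1 p.2 ∧ v ∈ c.KV i p.1 p.2 := ⟨(ξ, η), hP, hv⟩
    have h1 : μ v = mm hex.choose.1 hex.choose.2 v := dif_pos hex
    obtain ⟨h2, h3⟩ := huniq ξ η _ _ v hP hex.choose_spec.1 hv hex.choose_spec.2
    rw [h1, h2, h3]
  have hμ2 : ∀ v, (¬ ∃ p : ℕ × ℕ, P p.1 p.2 ∧ v ∈ c.KV i p.1 p.2) → μ v = c.m v :=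
    fun v hv => dif_neg hv
  refine ⟨{e | e ∈ c.We i ∧ Bs c.F (c.Jz i) μ e}, μ, fun e he => he.1, ?_, ?_, ?_, ?_⟩
  · intro v hv
    by_cases hex : ∃ p : ℕ × ℕ, P p.1 p.2 ∧ v ∈ c.KV i p.1 p.2
    · obtain ⟨⟨ξ, η⟩, hP, hvK⟩ := hex
      simp only at hP hvK
      obtain ⟨-, hPM, -, -⟩ := hCC ξ η hP
      obtain ⟨hV, h1⟩ := hPM v hvK
      refine ⟨hV, ?_⟩
      rw [hμ1 ξ η v hP hvK]
      rcases h1 with ⟨e, h1, h2, h3⟩ | ⟨u, hu, h1, h2, h3, h4⟩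
      · exact Or.inl ⟨e, h1, h2, h3.1⟩
      · exact Or.inr ⟨u, hu.1, h1, by rw [hμ1 ξ η u hP hu]; exact h2, h3, h4.1⟩
    · rw [hμ2 v hex]
      refine ⟨hv.1, ?_⟩
      have hhub1 := h.hub (i + 1) hiT v hv.1
      have hhub2 := h.hub i hiT.le v hv.1
      rcases h.pm.cases hv.1 with ⟨e, he, h1⟩ | ⟨u, hu, huV, h2, h3, h4⟩
      · refine Or.inl ⟨e, he, h1, (l2 e v h1).2 ⟨⟨Frame.att_E h1, ?_⟩, ?_⟩⟩
        · rw [← he]; exact fun h5 => hv.2.2 (hhub2.2 h5)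
        · rintro ⟨-, h5⟩
          rw [← he] at h5
          exact h5 (hhub1.1 hv.2.1)
      · have hu1 : Sum.inr u ∈ c.O (i + 1) := by rw [← hu]; exact hhub1.1 hv.2.1
        have hu2 : Sum.inr u ∉ c.O i := by rw [← hu]; exact fun h5 => hv.2.2 (hhub2.2 h5)
        have hGvu : c.F.G (Sum.inr v) (Sum.inr u) := h4
        have hGuv : c.F.G (Sum.inr u) (Sum.inr v) := Frame.G_symm hGvu
        have hexu : ¬ ∃ p : ℕ × ℕ, P p.1 p.2 ∧ u ∈ c.KV i p.1 p.2 := by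
          rintro ⟨⟨ξ, η⟩, hP, huK⟩
          simp only at hP huK
          obtain ⟨-, -, -, -, -, -, k7, -, -⟩ := hK' ξ hP.1 η hP.2.1 hP.2.2.1 hP.2.2.2.1
          rcases k7 u huK v hGuv with h5 | h5 | h5
          · exact hex ⟨(ξ, η), hP, h5⟩
          · exact xi_win h hiT hP.1 (h5 ▸ ⟨hv.2.1, hv.2.2⟩)
          · exact xi_win h hiT hP.2.1 (h5 ▸ ⟨hv.2.1, hv.2.2⟩)
        refine Or.inr ⟨u, ⟨huV, hu1, hu2⟩, hu, by rw [hμ2 u hexu]; exact h2, hGuv, ?_⟩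
        rcases Frame.G_D h.pm hGuv with hD | hD
        · exact l6 _ _ hD hu1 hu2 hv.2.1 hv.2.2
        · exact win_symm (l6 _ _ hD hv.2.1 hv.2.2 hu1 hu2)
  · intro e he
    exact ⟨fun h1 => h1.2, fun h1 => ⟨he, h1⟩⟩
  · intro v _ hno
    refine hμ2 v ?_
    rintro ⟨⟨ξ, η⟩, hP, hvK⟩
    exact hno ξ hP.1 η hP.2.1 hP.2.2.1 hP.2.2.2.1 hvK
  · intro ξ hξ η hη hξO hηO hbrk
    have hP : P ξ η := ⟨hξ, hη, hξO, hηO, hbrk⟩
    obtain ⟨h1, h2, h3, h4⟩ := hCC ξ η hP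
    obtain ⟨-, -, -, -, k5, -, -, -, -⟩ := hK' ξ hξ η hη hξO hηO
    have heq : {e | e ∈ c.We i ∧ Bs c.F (c.Jz i) μ e} ∩ c.KE i ξ η = CC ξ η := by
      ext e
      constructor
      · rintro ⟨⟨-, h5⟩, h6⟩
        obtain ⟨v, hvK, hat⟩ := k5 e h6
        rw [h3 e h6, bs_att hat]
        rw [bs_att hat, hμ1 ξ η v hP hvK] at h5
        simp only [hvK.1, hvK, true_and] at h5 ⊢
        exact h5
      · intro h5
        have h6 := h1 h5
        obtain ⟨v, hvK, hat⟩ := k5 e h6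
        refine ⟨⟨h6.1, ?_⟩, h6⟩
        rw [h3 e h6, bs_att hat] at h5
        rw [bs_att hat, hμ1 ξ η v hP hvK]
        simp only [hvK.1, hvK, true_and] at h5 ⊢
        exact h5
    rw [heq]
    exact h4

end Pool.Agent.H4.GW
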