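import Pool.Agent.H55.GW.Targets3

/-! # wq_modules LOWA, LOWB (helper4) -/

set_option autoImplicit false

namespace Pool.Agent.H4.GW

open Pool.Agent.H55.GW

theorem low_symm {c : Ctx} {i : ℕ} {x y : Vx} (h : c.low i x y) : c.low i y x := Or.symm h

theorem win_symm {c : Ctx} {i : ℕ} {x y : Vx} (h : c.win i x y) : c.win i y x :=
  ⟨low_symm h.1, fun h' => h.2 (low_symm h')⟩

theorem edK_symm {c : Ctx} {i ξ η : ℕ} {x y : Vx} (h : c.edK i ξ η x y) : c.edK i ξ η y x :=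
  ⟨win_symm h.1, Or.symm h.2⟩

theorem lowa : T_LOWA := by
  intro c h i hi
  refine ⟨?_, ?_, ?_⟩
  · intro e v hev
    by_cases hb : e ∈ c.F.base c.m
    · have hD : c.F.D c.m (Sum.inr v) (Sum.inl e) := ⟨hev, hb⟩
      constructor
      · rintro (h1 | h1)
        · exact absurd h1.1 (Frame.no_out_snk hb _)
        · exact ⟨Frame.att_E hev, h1.2.1⟩
      · rintro ⟨-, h2⟩
        refine Or.inr ⟨hD, h2, ?_⟩
        by_cases hv : Sum.inr v ∈ c.O i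
        · rcases h.cover i hi _ _ hD hv h2 with ⟨ξ, hξ, h3 | h3⟩ | ⟨a, ⟨ha, h3⟩ | ⟨ha, h3⟩⟩
          · exact Or.inr (Or.inl ⟨ξ, hξ, h3⟩)
          · exact absurd h3 (by simp)
          · exact Or.inr (Or.inr ⟨a, ha, h3⟩)
          · exact absurd h3 (by simp)
        · exact Or.inl hv
    · have hD : c.F.D c.m (Sum.inl e) (Sum.inr v) := ⟨hev, hb⟩
      constructor
      · rintro (h1 | h1)
        · refine ⟨Frame.att_E hev, ?_⟩
          rcases h1.2.2 with h3 | ⟨ξ, -, h3⟩ | ⟨a, -, h3⟩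
          · exact h3
          · exact absurd h3 (by simp)
          · exact absurd h3 (by simp)
        · exact absurd h1.1 (Frame.no_in_src hb _)
      · rintro ⟨-, h2⟩
        exact Or.inl ⟨hD, fun hv => h2 (h.inc i hi _ _ hD hv), Or.inl h2⟩
  · rintro v ⟨hV, hO, hX, hs⟩ y hG
    rcases Frame.G_D h.pm hG with hD | hD
    · exact Or.inl ⟨hD, fun hy => hO (h.inc i hi _ _ hD hy), Or.inl hO⟩
    · refine Or.inr ⟨hD, hO, ?_⟩
      by_cases hy : y ∈ c.O i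
      · rcases h.cover i hi _ _ hD hy hO with ⟨ξ, hξ, h3 | h3⟩ | ⟨a, ⟨ha, h3⟩ | ⟨ha, h3⟩⟩
        · exact Or.inr (Or.inl ⟨ξ, hξ, h3⟩)
        · exact absurd (Sum.inr.inj h3 ▸ hξ) hX
        · exact Or.inr (Or.inr ⟨a, ha, h3⟩)
        · exact absurd (Sum.inr.inj h3) (hs a)
      · exact Or.inl hy
  · intro v hv hX hs y hlow
    rcases hlow with h1 | h1
    · rcases h1.2.2 with h3 | ⟨ξ, hξ, h3⟩ | ⟨a, -, h3⟩
      · exact h3 hv
      · exact hX (Sum.inr.inj h3 ▸ hξ)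
      · exact hs a (Sum.inr.inj h3)
    · exact h1.2.1 hv

section

variable {c : Ctx} (h : c.Ok)

include h

theorem mono' {i j : ℕ} (hij : i ≤ j) (hj : j ≤ c.T) {x : Vx} (hx : x ∉ c.O j) : x ∉ c.O i :=
  fun h' => hx (h.mono i j hij hj h')

/-- vertices of `Ξ` do not lie in windows -/
theorem xi_win {i : ℕ} (hi : i < c.T) {ξ : ℕ} (hξ : ξ ∈ c.Ξ) :
    ¬ (Sum.inr ξ ∈ c.O (i + 1) ∧ Sum.inr ξ ∉ c.O i) := by
  rintro ⟨h1, h2⟩
  rcases (h.xiV ξ hξ).2 with h3 | h3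
  · exact h2 (h.mono 0 i (Nat.zero_le _) hi.le h3)
  · exact h3 (h.mono (i + 1) c.T hi le_rfl h1)

theorem s_mem_succ {i : ℕ} (hi : i < c.T) (a : Fin c.k) : Sum.inr (c.s i a) ∈ c.O (i + 1) := by
  rcases hty : c.ty a with _ | _
  · exact (h.sI i hi.le a hty).2.2 (i + 1) (Nat.lt_succ_self _) hi
  · exact h.mono i (i + 1) (Nat.le_succ _) hi (h.sO i hi.le a hty).2.1

theorem s_succ_notMem {i : ℕ} (hi : i < c.T) (a : Fin c.k) : Sum.inr (c.s (i + 1) a) ∉ c.O i := by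
  rcases hty : c.ty a with _ | _
  · exact mono' h (Nat.le_succ _) hi (h.sI (i + 1) hi a hty).2.1
  · exact (h.sO (i + 1) hi a hty).2.2 i (Nat.lt_succ_self _)

theorem s_succ_ne {i : ℕ} (hi : i < c.T) (a b : Fin c.k) : c.s (i + 1) a ≠ c.s i b := by
  intro he
  rcases hty : c.ty a with _ | _
  · exact (h.sI (i + 1) hi a hty).2.1 (he ▸ s_mem_succ h hi b)
  · rcases htb : c.ty b with _ | _
    · exact (h.sI i hi.le b htb).1 (he ▸ (h.sO (i + 1) hi a hty).1)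
    · exact s_succ_notMem h hi a (he ▸ (h.sO i hi.le b htb).2.1)

theorem s_inj {i : ℕ} (hi : i ≤ c.T) {a b : Fin c.k} (he : c.s i a = c.s i b) : a = b := by
  by_contra hne
  exact Set.disjoint_left.1 (h.dTr a b hne) (h.sV i hi a).2.2 (he ▸ (h.sV i hi b).2.2)

theorem s_notMem_Xi {i : ℕ} (hi : i ≤ c.T) (a : Fin c.k) : c.s i a ∉ c.Ξ := (h.sV i hi a).2.1

theorem s_succ_fre {i : ℕ} (hi : i < c.T) (a : Fin c.k) : c.s (i + 1) a ∈ c.fre i :=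
  ⟨(h.sV (i + 1) hi a).1, s_succ_notMem h hi a, s_notMem_Xi h hi a, fun b => s_succ_ne h hi a b⟩

theorem fre_succ_sub {i : ℕ} (hi : i < c.T) : c.fre (i + 1) ⊆ c.fre i := by
  rintro v ⟨hV, hO, hX, hs⟩
  refine ⟨hV, mono' h (Nat.le_succ _) hi hO, hX, fun a he => hO ?_⟩
  rw [he]
  exact s_mem_succ h hi a

theorem lowb_one {i : ℕ} (hi : i < c.T) {x y : Vx} (hl : c.low (i + 1) x y) : c.low i x y := by
  have key : ∀ x y, c.la (i + 1) x y → c.la i x y := by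
    rintro x y ⟨h1, h2, h3⟩
    refine ⟨h1, mono' h (Nat.le_succ _) hi h2, ?_⟩
    rcases h3 with h3 | ⟨ξ, hξ, h3⟩ | ⟨a, ha, h3⟩
    · exact Or.inl (mono' h (Nat.le_succ _) hi h3)
    · exact Or.inr (Or.inl ⟨ξ, hξ, h3⟩)
    · refine Or.inl ?_
      rw [h3]
      exact s_succ_notMem h hi a
  rcases hl with hl | hl
  · exact Or.inl (key _ _ hl)
  · exact Or.inr (key _ _ hl)

end

theorem lowb (hA : T_LOWA) : T_LOWB := by
  intro c h i hi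
  obtain ⟨a1, a2, a3⟩ := hA c h i hi.le
  obtain ⟨b1, b2, b3⟩ := hA c h (i + 1) hi
  have hmono : c.O i ⊆ c.O (i + 1) := h.mono i (i + 1) (Nat.le_succ _) hi
  have hJX : ∀ v ∈ c.Jz i, v ∉ c.Ξ := fun v hv hX => xi_win h hi hX ⟨hv.2.1, hv.2.2⟩
  have c7 : ∀ (K : Set ℕ) (Y : Set (Fin c.k)), c.cvS (i + 1) K Y ⊆ c.cvS i K Y := by
    rintro K Y v ((hv | hv) | ⟨a, -, rfl⟩)
    · exact Or.inl (Or.inl (fre_succ_sub h hi hv))
    · exact Or.inl (Or.inr hv)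
    · exact Or.inl (Or.inl (s_succ_fre h hi a))
  refine ⟨fun x y => lowb_one h hi, ?_, ?_, ?_, ?_, ?_, c7, ?_⟩
  · intro e v hev
    constructor
    · rintro ⟨h1, h2⟩
      exact ⟨(a1 e v hev).1 h1, fun h3 => h2 ((b1 e v hev).2 h3)⟩
    · rintro ⟨h1, h2⟩
      exact ⟨(a1 e v hev).2 h1, fun h3 => h2 ((b1 e v hev).1 h3)⟩
  · rintro x y ⟨hl, hn⟩
    rcases hl with ⟨h1, h2, h3⟩ | ⟨h1, h2, h3⟩
    · rcases h3 with h3 | ⟨ξ, hξ, h3⟩ | ⟨a, ha, h3⟩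
      · refine Or.inl ⟨?_, h3⟩
        by_contra hx
        refine hn (Or.inl ⟨h1, fun hy => hx (h.inc (i + 1) hi _ _ h1 hy), Or.inl hx⟩)
      · exact Or.inr (Or.inl ⟨ξ, hξ, h3⟩)
      · exact Or.inr (Or.inr ⟨a, Or.inl ⟨ha, h3⟩⟩)
    · by_cases hx : x ∈ c.O (i + 1)
      · exact Or.inl ⟨hx, h2⟩
      · by_cases hy : y ∈ c.O (i + 1)
        · rcases h.cover (i + 1) hi _ _ h1 hy hx with
            ⟨ξ, hξ, h4 | h4⟩ | ⟨a, ⟨ha, h4⟩ | ⟨ha, h4⟩⟩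
          · exact absurd (Or.inr ⟨h1, hx, Or.inr (Or.inl ⟨ξ, hξ, h4⟩)⟩) hn
          · exact Or.inr (Or.inl ⟨ξ, hξ, h4⟩)
          · exact absurd (Or.inr ⟨h1, hx, Or.inr (Or.inr ⟨a, ha, h4⟩)⟩) hn
          · exact Or.inr (Or.inr ⟨a, Or.inr ⟨ha, h4⟩⟩)
        · exact absurd (Or.inr ⟨h1, hx, Or.inl hy⟩) hn
  · rintro x y ⟨hl, hn⟩ ⟨⟨ξ, hξ, hx⟩, ⟨ξ', hξ', hy⟩⟩
    have key : ∀ ζ ∈ c.Ξ, Sum.inr ζ ∉ c.O i → Sum.inr ζ ∉ c.O (i + 1) := fun ζ hζ h1 h2 =>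
      xi_win h hi hζ ⟨h2, h1⟩
    rcases hl with ⟨h1, h2, h3⟩ | ⟨h1, h2, h3⟩
    · exact hn (Or.inl ⟨h1, by rw [hy] at h2 ⊢; exact key ξ' hξ' h2, Or.inr (Or.inl ⟨ξ, hξ, hx⟩)⟩)
    · exact hn (Or.inr ⟨h1, by rw [hx] at h2 ⊢; exact key ξ hξ h2, Or.inr (Or.inl ⟨ξ', hξ', hy⟩)⟩)
  · intro v hv hs y hG
    exact ⟨a2 v ⟨hv.1, hv.2.2, hJX v hv, fun a => (hs a).1⟩ y hG,
      b3 v hv.2.1 (hJX v hv) (fun a => (hs a).2) y⟩
  · intro x y hD hx hx' hy hy'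
    refine ⟨Or.inl ⟨hD, hy', Or.inl hx'⟩, ?_⟩
    rintro (h1 | h1)
    · exact h1.2.1 hy
    · exact h1.2.1 hx
  · intro K K' Y Y' hK hK' v
    constructor
    · rintro ⟨h1, h2⟩
      rcases h1 with (h1 | h1) | ⟨a, ha, h1⟩
      · by_cases hs : ∃ a, v = c.s (i + 1) a
        · obtain ⟨a, ha⟩ := hs
          exact Or.inr (Or.inr (Or.inr ⟨a, fun haY => h2 (Or.inr ⟨a, haY, ha⟩), ha⟩))
        · push Not at hs
          refine Or.inl ⟨⟨h1.1, ?_, h1.2.1⟩, h1.2.2.2, hs⟩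
          by_contra hO
          exact h2 (Or.inl (Or.inl ⟨h1.1, hO, h1.2.2.1, hs⟩))
      · exact Or.inr (Or.inl ⟨h1, fun h3 => h2 (Or.inl (Or.inr h3))⟩)
      · exact Or.inr (Or.inr (Or.inl ⟨a, ha, h1⟩))
    · rintro (⟨h1, h2, h3⟩ | ⟨h1, h2⟩ | ⟨a, ha, rfl⟩ | ⟨a, ha, rfl⟩)
      · refine ⟨Or.inl (Or.inl ⟨h1.1, h1.2.2, hJX v h1, h2⟩), ?_⟩
        rintro ((h4 | h4) | ⟨a, -, h4⟩)
        · exact h4.2.1 h1.2.1
        · exact hJX v h1 (by simpa using hK (hK' h4))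
        · exact h3 a h4
      · refine ⟨Or.inl (Or.inr h1), ?_⟩
        have hX : v ∈ c.Ξ := by simpa using hK h1
        rintro ((h4 | h4) | ⟨a, -, h4⟩)
        · exact h4.2.2.1 hX
        · exact h2 h4
        · exact s_notMem_Xi h hi a (h4 ▸ hX)
      · refine ⟨Or.inr ⟨a, ha, rfl⟩, ?_⟩
        rintro ((h4 | h4) | ⟨b, -, h4⟩)
        · exact h4.2.1 (s_mem_succ h hi a)
        · exact s_notMem_Xi h hi.le a (by simpa using hK (hK' h4))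
        · exact s_succ_ne h hi b a h4.symm
      · refine ⟨Or.inl (Or.inl (s_succ_fre h hi a)), ?_⟩
        rintro ((h4 | h4) | ⟨b, hb, h4⟩)
        · exact h4.2.2.2 a rfl
        · exact s_notMem_Xi h hi a (by simpa using hK (hK' h4))
        · exact ha (s_inj h hi h4 ▸ hb)

end Pool.Agent.H4.GW
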