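import Pool.Agent.H55.GW.Targets1

/-! # wq_modules SUBM, RAM, EXT (helper4) -/

set_option autoImplicit false

namespace Pool.Agent.H4.GW

open Pool.Agent.H55.GW

/-! ## SUBM -/

/-- the boundary of a set of vertices towards the target `K` -/
def bd {W : Type} (D : W → W → Prop) (K R : Set W) : Set W :=
  {v | v ∈ R ∧ (v ∈ K ∨ ∃ w, w ∉ R ∧ D v w)}

lemma bd_sep {W : Type} {D : W → W → Prop} {K R Z : Set W} (h : Z ⊆ R) :
    Sep D (bd D K R) Z K := by
  intro z hz y hy hr
  have h1 : y ∈ R := hr.induct (p := fun v => v ∈ R) (h hz) (by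
    intro u v hu _ hD huR
    by_contra hv
    exact hu ⟨huR, Or.inr ⟨v, hv, hD⟩⟩)
  exact hr.right_mem ⟨h1, Or.inl hy⟩

lemma exists_region {W : Type} {D : W → W → Prop} {K X : Set W} {S : Finset W}
    (h : Sep D (S : Set W) X K) : ∃ R : Set W, X ⊆ R ∧ bd D K R ⊆ (S : Set W) := by
  refine ⟨{v | v ∈ S ∨ ∀ y ∈ K, ¬ RIn D (S : Set W)ᶜ v y}, fun x hx => Or.inr fun y hy => h x hx y hy,
    ?_⟩
  rintro v ⟨hv, h2⟩
  by_contra hvS
  have hvS' : v ∉ S := fun h => hvS (by simpa using h)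
  rcases hv with hv | hv
  · exact hvS' hv
  · rcases h2 with h2 | ⟨w, hw, hD⟩
    · exact hv v h2 (RIn.refl hvS)
    · have hw' : w ∉ S ∧ ∃ y ∈ K, RIn D (S : Set W)ᶜ w y := by
        constructor
        · exact fun h => hw (Or.inl h)
        · by_contra hcon
          push Not at hcon
          exact hw (Or.inr hcon)
      obtain ⟨-, y, hy, hr⟩ := hw'
      exact hv y hy (RIn.head hD hvS hr)

lemma cut_le {W : Type} {D : W → W → Prop} {X K T : Set W} (hT : T.Finite) (h : Sep D T X K) :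
    cut D X K ≤ T.ncard := by
  refine Nat.sInf_le ⟨hT.toFinset, ?_, by simpa using h⟩
  rw [Set.ncard_eq_toFinset_card T hT]

lemma cut_mem {W : Type} {D : W → W → Prop} {X K : Set W} (hX : X.Finite) :
    ∃ S : Finset W, S.card = cut D X K ∧ Sep D (S : Set W) X K := by
  refine Nat.sInf_mem (s := {n | ∃ S : Finset W, S.card = n ∧ Sep D (S : Set W) X K}) ?_
  refine ⟨hX.toFinset.card, hX.toFinset, rfl, ?_⟩
  intro x hx y _ hr
  exact hr.left_mem (by simpa using hx)

theorem subm : T_SUBM := by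
  intro W D K X X' hX hX'
  obtain ⟨S, hS1, hS2⟩ := cut_mem (D := D) (K := K) hX
  obtain ⟨S', hS1', hS2'⟩ := cut_mem (D := D) (K := K) hX'
  obtain ⟨R, hR1, hR2⟩ := exists_region hS2
  obtain ⟨R', hR1', hR2'⟩ := exists_region hS2'
  have hfR : (bd D K R).Finite := (S.finite_toSet).subset hR2
  have hfR' : (bd D K R').Finite := (S'.finite_toSet).subset hR2'
  have h1 : bd D K (R ∪ R') ∪ bd D K (R ∩ R') ⊆ bd D K R ∪ bd D K R' := by
    rintro v (⟨hv, h2⟩ | ⟨hv, h2⟩)
    · rcases hv with hv | hv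
      · refine Or.inl ⟨hv, h2.imp_right ?_⟩
        rintro ⟨w, hw, hD⟩
        exact ⟨w, fun h => hw (Or.inl h), hD⟩
      · refine Or.inr ⟨hv, h2.imp_right ?_⟩
        rintro ⟨w, hw, hD⟩
        exact ⟨w, fun h => hw (Or.inr h), hD⟩
    · rcases h2 with h2 | ⟨w, hw, hD⟩
      · exact Or.inl ⟨hv.1, Or.inl h2⟩
      · by_cases hwR : w ∈ R
        · exact Or.inr ⟨hv.2, Or.inr ⟨w, fun h => hw ⟨hwR, h⟩, hD⟩⟩
        · exact Or.inl ⟨hv.1, Or.inr ⟨w, hwR, hD⟩⟩
  have h2 : bd D K (R ∪ R') ∩ bd D K (R ∩ R') ⊆ bd D K R ∩ bd D K R' := by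
    rintro v ⟨⟨-, h3⟩, ⟨hv, -⟩⟩
    rcases h3 with h3 | ⟨w, hw, hD⟩
    · exact ⟨⟨hv.1, Or.inl h3⟩, ⟨hv.2, Or.inl h3⟩⟩
    · exact ⟨⟨hv.1, Or.inr ⟨w, fun h => hw (Or.inl h), hD⟩⟩,
        ⟨hv.2, Or.inr ⟨w, fun h => hw (Or.inr h), hD⟩⟩⟩
  have hf1 : (bd D K (R ∪ R')).Finite :=
    (hfR.union hfR').subset (Set.subset_union_left.trans h1)
  have hf2 : (bd D K (R ∩ R')).Finite :=
    (hfR.union hfR').subset (Set.subset_union_right.trans h1)
  have e1 : cut D (X ∪ X') K ≤ (bd D K (R ∪ R')).ncard :=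
    cut_le hf1 (bd_sep (Set.union_subset_union hR1 hR1'))
  have e2 : cut D (X ∩ X') K ≤ (bd D K (R ∩ R')).ncard :=
    cut_le hf2 (bd_sep (Set.inter_subset_inter hR1 hR1'))
  have e3 := Set.ncard_union_add_ncard_inter (bd D K (R ∪ R')) (bd D K (R ∩ R')) hf1 hf2
  have e4 := Set.ncard_union_add_ncard_inter (bd D K R) (bd D K R') hfR hfR'
  have e5 := Set.ncard_le_ncard h1 (hfR.union hfR')
  have e6 := Set.ncard_le_ncard h2 (hfR.inter_of_left _)
  have e7 : (bd D K R).ncard ≤ S.card := by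
    rw [← Set.ncard_coe_finset S]
    exact Set.ncard_le_ncard hR2 S.finite_toSet
  have e8 : (bd D K R').ncard ≤ S'.card := by
    rw [← Set.ncard_coe_finset S']
    exact Set.ncard_le_ncard hR2' S'.finite_toSet
  omega

/-! ## RAM -/

lemma ram_aux {α : Type} [LinearOrder α] {c : ℕ} (hc : 0 < c) (f : α → α → Fin c) (n : ℕ) :
    ∀ S : Finset α, (c + 1) ^ n ≤ S.card → ∃ T ⊆ S, T.card = n ∧
      ∃ φ : α → Fin c, ∀ x ∈ T, ∀ y ∈ T, x < y → f x y = φ x := by
  classical
  induction n with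
  | zero =>
    intro S _
    exact ⟨∅, by simp, rfl, fun _ => ⟨0, hc⟩, by simp⟩
  | succ n ih =>
    intro S hS
    have hne : S.Nonempty := by
      rw [← Finset.card_pos]
      exact lt_of_lt_of_le (by positivity) hS
    obtain ⟨x, hxS, hmin⟩ : ∃ x ∈ S, ∀ y ∈ S, x ≤ y :=
      ⟨S.min' hne, S.min'_mem hne, fun y hy => S.min'_le y hy⟩
    have h1 : c * (c + 1) ^ n ≤ (S.erase x).card := by
      rw [Finset.card_erase_of_mem hxS]
      have h2 : (c + 1) ^ (n + 1) = c * (c + 1) ^ n + (c + 1) ^ n := by ring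
      have h3 : 0 < (c + 1) ^ n := by positivity
      omega
    have hne' : (Finset.univ : Finset (Fin c)).Nonempty := ⟨⟨0, hc⟩, Finset.mem_univ _⟩
    obtain ⟨a, -, ha⟩ := Finset.exists_le_card_fiber_of_mul_le_card_of_maps_to
      (s := S.erase x) (t := (Finset.univ : Finset (Fin c))) (f := fun y => f x y)
      (n := (c + 1) ^ n) (fun _ _ => Finset.mem_univ _) hne' (by simpa using h1)
    obtain ⟨T, hT, hTc, φ, hφ⟩ := ih _ ha
    have hTx : ∀ y ∈ T, y ∈ S ∧ y ≠ x ∧ f x y = a := by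
      intro y hy
      have := hT hy
      rw [Finset.mem_filter, Finset.mem_erase] at this
      exact ⟨this.1.2, this.1.1, this.2⟩
    refine ⟨insert x T, ?_, ?_, Function.update φ x a, ?_⟩
    · intro y hy
      rcases Finset.mem_insert.1 hy with rfl | hy
      · exact hxS
      · exact (hTx y hy).1
    · rw [Finset.card_insert_of_notMem fun h => (hTx x h).2.1 rfl, hTc]
    · intro u hu v hv huv
      rcases Finset.mem_insert.1 hu with hux | huT
      · rcases Finset.mem_insert.1 hv with hvx | hvT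
        · rw [hux, hvx] at huv
          exact absurd huv (lt_irrefl _)
        · rw [hux, Function.update_self]
          exact (hTx v hvT).2.2
      · rcases Finset.mem_insert.1 hv with hvx | hvT
        · rw [hvx] at huv
          exact absurd (hmin u (hTx u huT).1) (not_le.2 huv)
        · rw [Function.update_of_ne (hTx u huT).2.1]
          exact hφ u huT v hvT huv

theorem ram : T_RAM := by
  classical
  intro c k
  refine ⟨(c + 1) ^ (c * k), fun f => ?_⟩
  have hN : 0 < (c + 1) ^ (c * k) := by positivity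
  have hc : 0 < c := lt_of_le_of_lt (Nat.zero_le _) (f ⟨0, hN⟩ ⟨0, hN⟩).2
  obtain ⟨T, -, hT, φ, hφ⟩ := ram_aux hc f (c * k) Finset.univ (by simp)
  have hne' : (Finset.univ : Finset (Fin c)).Nonempty := ⟨⟨0, hc⟩, Finset.mem_univ _⟩
  obtain ⟨a, -, ha⟩ := Finset.exists_le_card_fiber_of_mul_le_card_of_maps_to
    (s := T) (t := (Finset.univ : Finset (Fin c))) (f := φ)
    (n := k) (fun _ _ => Finset.mem_univ _) hne' (by simp [hT])
  obtain ⟨T', hT', hk⟩ := Finset.exists_subset_card_eq ha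
  refine ⟨T'.orderEmbOfFin hk, (T'.orderEmbOfFin hk).strictMono, a, fun i j hij => ?_⟩
  have hmem : ∀ i, T'.orderEmbOfFin hk i ∈ T ∧ φ (T'.orderEmbOfFin hk i) = a := by
    intro i
    have := hT' (T'.orderEmbOfFin_mem hk i)
    rwa [Finset.mem_filter] at this
  rw [hφ _ (hmem i).1 _ (hmem j).1 ((T'.orderEmbOfFin hk).strictMono hij)]
  exact (hmem i).2

/-! ## EXT -/

theorem ext : T_EXT := by
  classical
  intro F m φ hm hφ X hX S hS
  have hsnk : ∀ x ∈ X, x ∉ S → x ∉ F.snk m := by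
    intro x hx hxS hx'
    exact hS x (by simpa using hx) x hx' (RIn.refl (by simpa using hxS))
  -- the four parts
  let P2 : Finset ℕ := F.V.filter fun p => F.isP p ∧ Sum.inr p ∈ X
  let P3 : Finset ℕ := F.V.filter fun q => ¬ F.isP q ∧ Sum.inr q ∈ X ∧ m q ∈ S
  let P4 : Finset ℕ := F.V.filter fun q => ¬ F.isP q ∧ Sum.inr q ∈ X ∧ Sum.inr q ∉ S ∧ m q ∉ S
  let P5 : Finset ℕ := F.V.filter fun p => F.isP p ∧ ∃ q ∈ P4, m q = Sum.inr p
  have hinj : ∀ q ∈ F.V, ∀ q' ∈ F.V, m q = m q' → q = q' := by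
    intro q hq q' hq' h
    rcases hm.cases hq with ⟨e, he, h1⟩ | ⟨u, hu, h1, h2, h3, h4⟩
    · rcases hm.cases hq' with ⟨e', he', h1'⟩ | ⟨u', hu', h1', h2', h3', h4'⟩
      · rw [he, he'] at h
        rw [Sum.inl.injEq] at h
        rw [← h] at h1'
        exact F.att_uniq e q q' h1 h1'
      · rw [he, hu'] at h
        exact absurd h (by simp)
    · rw [hu] at h
      have h5 := ((hm q' hq').2 u h.symm).2
      rw [h2, Sum.inr.injEq] at h5
      exact h5
  have c2 : P2.card ≤ φ S.card := by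
    refine hφ P2 (fun p hp => ?_) S ?_
    · rw [Finset.mem_filter] at hp
      exact ⟨hp.1, hp.2.1⟩
    · refine hS.mono subset_rfl ?_ subset_rfl
      rintro _ ⟨p, hp, rfl⟩
      rw [Finset.mem_coe, Finset.mem_filter] at hp
      simpa using hp.2.2
  have c3 : P3.card ≤ S.card := by
    refine Finset.card_le_card_of_injOn m (fun q hq => ?_) ?_
    · rw [Finset.mem_coe, Finset.mem_filter] at hq
      exact hq.2.2.2
    · intro q hq q' hq' h
      rw [Finset.mem_coe, Finset.mem_filter] at hq hq'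
      exact hinj q hq.1 q' hq'.1 h
  have c5 : P5.card ≤ φ S.card := by
    refine hφ P5 (fun p hp => ?_) S ?_
    · rw [Finset.mem_filter] at hp
      exact ⟨hp.1, hp.2.1⟩
    · rintro _ ⟨p, hp, rfl⟩ y hy hr
      rw [Finset.mem_coe, Finset.mem_filter] at hp
      obtain ⟨-, -, q, hq, hqp⟩ := hp
      rw [Finset.mem_filter] at hq
      obtain ⟨hqV, hqP, hqX, hqS, -⟩ := hq
      have hD := Frame.D_mate_Q hm hqV hqP
      rw [hqp] at hD
      exact hS (Sum.inr q) (by simpa using hqX) y hy (RIn.head hD (by simpa using hqS) hr)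
  -- the mate of a vertex of `P4` is an internal vertex
  have hmate : ∀ q ∈ P4, ∃ p ∈ P5, m q = Sum.inr p := by
    intro q hq
    have hq' := hq
    rw [Finset.mem_filter] at hq
    obtain ⟨hqV, hqP, hqX, hqS, hmS⟩ := hq
    rcases hm.cases hqV with ⟨e, he, h1⟩ | ⟨u, hu, h1, h2, h3, h4⟩
    · exfalso
      have hD := Frame.D_mate_Q hm hqV hqP
      rw [he] at hD hmS
      refine hS (Sum.inr q) (by simpa using hqX) (Sum.inl e) ⟨e, hD.2, rfl⟩
        (RIn.single hD (by simpa using hqS) (by simpa using hmS))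
    · refine ⟨u, ?_, hu⟩
      rw [Finset.mem_filter]
      refine ⟨h1, ?_, q, hq', hu⟩
      by_contra h5
      exact hqP (h3.2 h5)
  have c4 : P4.card ≤ P5.card := by
    choose! g hg1 hg2 using hmate
    refine Finset.card_le_card_of_injOn g (fun q hq => hg1 q hq) ?_
    intro q hq q' hq' h
    have h1 := hg2 q hq
    have h2 := hg2 q' hq'
    rw [h, ← h2] at h1
    rw [Finset.mem_coe, Finset.mem_filter] at hq hq'
    exact hinj q hq.1 q' hq'.1 h1
  have hsub : X ⊆ S ∪ (P2.image Sum.inr ∪ (P3.image Sum.inr ∪ P4.image Sum.inr)) := by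
    intro x hx
    by_cases hxS : x ∈ S
    · exact Finset.mem_union_left _ hxS
    · rcases hX x hx with hx' | hx'
      · obtain ⟨v, hv, rfl⟩ := hx'
        refine Finset.mem_union_right _ ?_
        by_cases hP : F.isP v
        · refine Finset.mem_union_left _ (Finset.mem_image.2 ⟨v, ?_, rfl⟩)
          exact Finset.mem_filter.2 ⟨hv, hP, hx⟩
        · refine Finset.mem_union_right _ ?_
          by_cases hmS : m v ∈ S
          · refine Finset.mem_union_left _ (Finset.mem_image.2 ⟨v, ?_, rfl⟩)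
            exact Finset.mem_filter.2 ⟨hv, hP, hx, hmS⟩
          · refine Finset.mem_union_right _ (Finset.mem_image.2 ⟨v, ?_, rfl⟩)
            exact Finset.mem_filter.2 ⟨hv, hP, hx, hxS, hmS⟩
      · exact absurd hx' (hsnk x hx hxS)
  have hcard := Finset.card_le_card hsub
  have u1 := Finset.card_union_le S (P2.image Sum.inr ∪ (P3.image Sum.inr ∪ P4.image Sum.inr))
  have u2 := Finset.card_union_le (P2.image Sum.inr : Finset Vx)
    (P3.image Sum.inr ∪ P4.image Sum.inr)
  have u3 := Finset.card_union_le (P3.image Sum.inr : Finset Vx) (P4.image Sum.inr)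
  have v2 : (P2.image Sum.inr : Finset Vx).card ≤ P2.card := Finset.card_image_le
  have v3 : (P3.image Sum.inr : Finset Vx).card ≤ P3.card := Finset.card_image_le
  have v4 : (P4.image Sum.inr : Finset Vx).card ≤ P4.card := Finset.card_image_le
  show X.card ≤ 2 * φ S.card + 3 * S.card
  omega

end Pool.Agent.H4.GW
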